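import Mathlib

namespace Pool.Agent.Results.MP_b304a3_nt.Q1

theorem result : ∃ (x : Fin 3 → Fin 3 → ℕ) (S : ℕ), (∀ i j, 0 < x i j) ∧
    (∀ i j k l, x i j ^ 2 = x k l ^ 2 → i = k ∧ j = l) ∧
    (∀ i, ∑ j, x i j ^ 2 = S) ∧ (∀ j, ∑ i, x i j ^ 2 = S) ∧
    x 0 2 ^ 2 + x 1 1 ^ 2 + x 2 0 ^ 2 = S ∧ x 0 0 ^ 2 + x 1 1 ^ 2 + x 2 2 ^ 2 ≠ S ∧
    ¬ IsSquare S := by
  refine ⟨![![3642, 1785, 2125], ![35, 2958, 3495], ![2775, 3005, 2058]], 20966014,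
    by decide, by decide +kernel, by decide +kernel, by decide +kernel, by decide +kernel,
    by decide +kernel, ?_⟩
  rintro ⟨r, hr⟩
  rcases le_or_gt r 4578 with h | h <;> nlinarith

end Pool.Agent.Results.MP_b304a3_nt.Q1
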